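import Mathlib
import Pool.Agent.Q105.TwBall
import Pool.Agent.Q105.FreeCube

/-!
# The twisted conjugacy ratio depends on the generating set

The group is `F₂ × ℤ/4`, the endomorphism is `(g, s) ↦ (cube g, 1)` where `cube` sends each of
the two basis elements to its cube.
-/

namespace Pool.Agent.Results.MP_91bf1e_al.GeneratorsMatter

open Pool.Agent.Q105.TwBall Pool.Agent.Q105.FreeCube

/-- The group `F₂ × ℤ/4`. -/
abbrev Gp : Type := FreeGroup (Fin 2) × Multiplicative (ZMod 4)

/-- The endomorphism `(g, s) ↦ (cube g, 1)`. -/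
def phi : Gp →* Gp :=
  (MonoidHom.inl (FreeGroup (Fin 2)) (Multiplicative (ZMod 4))).comp
    ((FreeGroup.lift fun a : Fin 2 => FreeGroup.of a ^ 3).comp
      (MonoidHom.fst (FreeGroup (Fin 2)) (Multiplicative (ZMod 4))))

/-- The element `(1, k)`. -/
def tt (k : ZMod 4) : Gp := (1, Multiplicative.ofAdd k)

/-- The first generating set `{a, b, t}`. -/
def X1 : Set Gp := {(FreeGroup.of 0, 1), (FreeGroup.of 1, 1), tt 1}

/-- The second generating set `{a, b, t, t²}`. -/
def X2 : Set Gp := {(FreeGroup.of 0, 1), (FreeGroup.of 1, 1), tt 1, tt 2}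

lemma ball_eq_of_length {G : Type*} [Group G] (X : Set G) (N : G → ℕ) (h1 : N 1 = 0)
    (h2 : ∀ g x, (x ∈ X ∨ x⁻¹ ∈ X) → N (g * x) ≤ N g + 1)
    (h3 : ∀ g, N g ≠ 0 → ∃ x, (x ∈ X ∨ x⁻¹ ∈ X) ∧ N (g * x) < N g)
    (h0 : ∀ g, N g = 0 → g = 1) (n : ℕ) : Ball X n = {g | N g ≤ n} := by
  ext g
  constructor
  · intro hg
    induction n generalizing g with
    | zero =>
      rw [Ball_zero] at hg
      rw [hg]
      exact h1.le
    | succ n ih =>
      rw [Ball_succ_eq] at hg
      rcases hg with hg | hg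
      · exact (ih g hg).trans (Nat.le_succ n)
      · simp only [Set.mem_iUnion] at hg
        obtain ⟨x, hx, g', hg', rfl⟩ := hg
        have := ih g' hg'
        have := h2 g' x hx
        simp only [Set.mem_ofPred_eq] at *
        omega
  · intro hg
    induction n generalizing g with
    | zero =>
      rw [h0 g (Nat.le_zero.mp hg)]
      exact one_mem_Ball X 0
    | succ n ih =>
      by_cases hz : N g = 0
      · rw [h0 g hz]; exact one_mem_Ball X _
      · obtain ⟨x, hx, hlt⟩ := h3 g hz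
        have h4 : g * x ∈ Ball X n := ih (g * x) (by
          simp only [Set.mem_ofPred_eq] at *
          omega)
        have h5 : x⁻¹ ∈ Ball X 1 :=
          inv_mem_Ball X ⟨[x], by simp, by simpa using hx, by simp⟩
        have h6 := mul_mem_Ball X h4 h5
        simpa using h6

/-- Word length in `ℤ/4` with respect to `{1}`. -/
def l1 (k : ZMod 4) : ℕ := if k = 0 then 0 else if k = 2 then 2 else 1

/-- Word length in `ℤ/4` with respect to `{1, 2}`. -/
def l2 (k : ZMod 4) : ℕ := if k = 0 then 0 else 1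

lemma norm_mul_letter_le (g : FreeGroup (Fin 2)) (i : Fin 2) :
    (g * FreeGroup.of i).norm ≤ g.norm + 1 ∧ (g * (FreeGroup.of i)⁻¹).norm ≤ g.norm + 1 := by
  constructor
  · have := FreeGroup.norm_mul_le g (FreeGroup.of i); simpa using this
  · have := FreeGroup.norm_mul_le g (FreeGroup.of i)⁻¹
    rw [FreeGroup.norm_inv_eq] at this; simpa using this

lemma exists_decreasing (g : FreeGroup (Fin 2)) (hg : g.norm ≠ 0) :
    ∃ i : Fin 2, (g * FreeGroup.of i).norm < g.norm ∨ (g * (FreeGroup.of i)⁻¹).norm < g.norm := by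
  have hne : g.toWord ≠ [] := by
    intro h
    apply hg
    simp [FreeGroup.norm, h]
  obtain ⟨L, p, hL⟩ : ∃ L p, g.toWord = L ++ [p] :=
    ⟨g.toWord.dropLast, g.toWord.getLast hne, (List.dropLast_append_getLast hne).symm⟩
  obtain ⟨i, b⟩ := p
  have hgm : g = FreeGroup.mk L * FreeGroup.mk [(i, b)] := by
    rw [FreeGroup.mul_mk, ← hL, FreeGroup.mk_toWord]
  have hlen : g.norm = L.length + 1 := by simp [FreeGroup.norm, hL]
  have hL2 : (FreeGroup.mk L).norm ≤ L.length := FreeGroup.norm_mk_le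
  refine ⟨i, ?_⟩
  cases b
  · left
    have : g * FreeGroup.of i = FreeGroup.mk L := by
      rw [hgm]
      have : FreeGroup.mk [(i, false)] = (FreeGroup.of i)⁻¹ := rfl
      rw [this]; group
    rw [this]; omega
  · right
    have : g * (FreeGroup.of i)⁻¹ = FreeGroup.mk L := by
      rw [hgm]
      have : FreeGroup.mk [(i, true)] = FreeGroup.of i := rfl
      rw [this]; group
    rw [this]; omega

lemma ball_X1 (n : ℕ) : Ball X1 n = {g | g.1.norm + l1 (Multiplicative.toAdd g.2) ≤ n} := by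
  apply ball_eq_of_length X1 (fun g => g.1.norm + l1 (Multiplicative.toAdd g.2))
  · simp [l1]
  · rintro ⟨g, s⟩ x hx
    have hk : ∀ s : ZMod 4, l1 (s + 1) ≤ l1 s + 1 ∧ l1 (s - 1) ≤ l1 s + 1 := by decide
    rcases hx with hx | hx
    · simp only [X1, tt, Set.mem_insert_iff, Set.mem_singleton_iff] at hx
      rcases hx with rfl | rfl | rfl
      · have := (norm_mul_letter_le g 0).1
        simp; omega
      · have := (norm_mul_letter_le g 1).1
        simp; omega
      · have := (hk (Multiplicative.toAdd s)).1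
        simp; omega
    · simp only [X1, tt, Set.mem_insert_iff, Set.mem_singleton_iff] at hx
      rcases hx with hx | hx | hx
      · obtain rfl : x = ((FreeGroup.of 0)⁻¹, 1) := by rw [← inv_inv x, hx]; simp
        have := (norm_mul_letter_le g 0).2
        simp; omega
      · obtain rfl : x = ((FreeGroup.of 1)⁻¹, 1) := by rw [← inv_inv x, hx]; simp
        have := (norm_mul_letter_le g 1).2
        simp; omega
      · obtain rfl : x = (1, Multiplicative.ofAdd (-1)) := by
          rw [← inv_inv x, hx]; simp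
        have := (hk (Multiplicative.toAdd s)).2
        simp only [Prod.mk_mul_mk, mul_one, toAdd_mul, toAdd_ofAdd]
        rw [← sub_eq_add_neg]
        omega
  · rintro ⟨g, s⟩ hg
    by_cases hn : g.norm = 0
    · have hk : ∀ s : ZMod 4, l1 s ≠ 0 → l1 (s + 1) < l1 s ∨ l1 (s - 1) < l1 s := by decide
      simp only [hn, zero_add] at hg
      rcases hk _ hg with h | h
      · exact ⟨tt 1, Or.inl (by simp [X1]), by simpa [tt] using h⟩
      · refine ⟨(tt 1)⁻¹, Or.inr (by simp [X1]), ?_⟩
        simp only [tt, Prod.inv_mk, inv_one, Prod.mk_mul_mk, mul_one, toAdd_mul, toAdd_inv,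
          toAdd_ofAdd]
        rw [← sub_eq_add_neg]
        omega
    · obtain ⟨i, h | h⟩ := exists_decreasing g hn
      · refine ⟨(FreeGroup.of i, 1), Or.inl ?_, by simpa using h⟩
        fin_cases i <;> simp [X1]
      · refine ⟨((FreeGroup.of i)⁻¹, 1), Or.inr ?_, by simpa using h⟩
        fin_cases i <;> simp [X1]
  · rintro ⟨g, s⟩ hg
    have h1 : g.norm = 0 := by simp only at hg; omega
    have h2 : l1 (Multiplicative.toAdd s) = 0 := by simp only at hg; omega
    have hk : ∀ s : ZMod 4, l1 s = 0 → s = 0 := by decide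
    rw [FreeGroup.norm_eq_zero] at h1
    have h3 := hk _ h2
    rw [h1]
    ext1
    · rfl
    · exact h3

lemma ball_X2 (n : ℕ) : Ball X2 n = {g | g.1.norm + l2 (Multiplicative.toAdd g.2) ≤ n} := by
  apply ball_eq_of_length X2 (fun g => g.1.norm + l2 (Multiplicative.toAdd g.2))
  · simp [l2]
  · rintro ⟨g, s⟩ x hx
    have hk : ∀ s d : ZMod 4, l2 (s + d) ≤ l2 s + 1 := by decide
    rcases hx with hx | hx
    · simp only [X2, tt, Set.mem_insert_iff, Set.mem_singleton_iff] at hx
      rcases hx with rfl | rfl | rfl | rfl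
      · have := (norm_mul_letter_le g 0).1
        simp; omega
      · have := (norm_mul_letter_le g 1).1
        simp; omega
      · have := hk (Multiplicative.toAdd s) 1
        simp; omega
      · have := hk (Multiplicative.toAdd s) 2
        simp; omega
    · simp only [X2, tt, Set.mem_insert_iff, Set.mem_singleton_iff] at hx
      rcases hx with hx | hx | hx | hx
      · obtain rfl : x = ((FreeGroup.of 0)⁻¹, 1) := by rw [← inv_inv x, hx]; simp
        have := (norm_mul_letter_le g 0).2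
        simp; omega
      · obtain rfl : x = ((FreeGroup.of 1)⁻¹, 1) := by rw [← inv_inv x, hx]; simp
        have := (norm_mul_letter_le g 1).2
        simp; omega
      · obtain rfl : x = (1, Multiplicative.ofAdd (-1)) := by
          rw [← inv_inv x, hx]; simp
        have := hk (Multiplicative.toAdd s) (-1)
        simp only [Prod.mk_mul_mk, mul_one, toAdd_mul, toAdd_ofAdd]
        omega
      · obtain rfl : x = (1, Multiplicative.ofAdd (-2)) := by
          rw [← inv_inv x, hx]; simp
        have := hk (Multiplicative.toAdd s) (-2)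
        simp only [Prod.mk_mul_mk, mul_one, toAdd_mul, toAdd_ofAdd]
        omega
  · rintro ⟨g, s⟩ hg
    by_cases hn : g.norm = 0
    · have hk : ∀ s : ZMod 4, l2 s ≠ 0 →
          l2 (s + 1) < l2 s ∨ l2 (s - 1) < l2 s ∨ l2 (s + 2) < l2 s := by decide
      simp only [hn, zero_add] at hg
      rcases hk _ hg with h | h | h
      · exact ⟨tt 1, Or.inl (by simp [X2]), by simpa [tt] using h⟩
      · refine ⟨(tt 1)⁻¹, Or.inr (by simp [X2]), ?_⟩
        simp only [tt, Prod.inv_mk, inv_one, Prod.mk_mul_mk, mul_one, toAdd_mul, toAdd_inv,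
          toAdd_ofAdd]
        rw [← sub_eq_add_neg]
        omega
      · exact ⟨tt 2, Or.inl (by simp [X2]), by simpa [tt] using h⟩
    · obtain ⟨i, h | h⟩ := exists_decreasing g hn
      · refine ⟨(FreeGroup.of i, 1), Or.inl ?_, by simpa using h⟩
        fin_cases i <;> simp [X2]
      · refine ⟨((FreeGroup.of i)⁻¹, 1), Or.inr ?_, by simpa using h⟩
        fin_cases i <;> simp [X2]
  · rintro ⟨g, s⟩ hg
    have h1 : g.norm = 0 := by simp only at hg; omega
    have h2 : l2 (Multiplicative.toAdd s) = 0 := by simp only at hg; omega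
    have hk : ∀ s : ZMod 4, l2 s = 0 → s = 0 := by decide
    rw [FreeGroup.norm_eq_zero] at h1
    have h3 := hk _ h2
    rw [h1]
    ext1
    · rfl
    · exact h3

/-- The standard basis of `F₂`. -/
abbrev XF : Set (FreeGroup (Fin 2)) := Set.range (FreeGroup.of : Fin 2 → FreeGroup (Fin 2))

lemma XF_finite : XF.Finite := Set.finite_range _

lemma XF_ncard_le : XF.ncard ≤ 2 := by
  unfold XF
  rw [← Set.image_univ]
  refine (Set.ncard_image_le Set.finite_univ).trans ?_
  rw [Set.ncard_univ]; simp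

lemma X1_finite : X1.Finite := by unfold X1; exact Set.toFinite _

lemma X2_finite : X2.Finite := by unfold X2; exact Set.toFinite _

lemma phi_apply (g : FreeGroup (Fin 2)) (s : Multiplicative (ZMod 4)) :
    phi (g, s) = (cubeHom (Fin 2) g, 1) := rfl

lemma twConj_iff (y y' : FreeGroup (Fin 2)) (r r' : Multiplicative (ZMod 4)) :
    TwConj phi (y, r) (y', r') ↔ TwConj (cubeHom (Fin 2)) y y' := by
  constructor
  · rintro ⟨⟨z, s⟩, h⟩
    rw [phi_apply] at h
    exact ⟨z, congrArg Prod.fst h⟩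
  · rintro ⟨z, h⟩
    refine ⟨(z, r * r'⁻¹), ?_⟩
    rw [phi_apply]
    ext1
    · exact h
    · simp

lemma classes_eq (n : ℕ) : twClasses phi X1 n = twClasses phi X2 n := by
  ext c
  constructor
  · rintro ⟨⟨g, s⟩, hg, rfl⟩
    refine ⟨(g, 1), ?_, ?_⟩
    · rw [ball_X1] at hg
      rw [ball_X2]
      simp only [Set.mem_ofPred_eq, toAdd_one] at hg ⊢
      have : l2 0 = 0 := rfl
      omega
    · rw [class_eq_iff, twConj_iff]
      exact twConj_refl _ _
  · rintro ⟨⟨g, s⟩, hg, rfl⟩
    refine ⟨(g, 1), ?_, ?_⟩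
    · rw [ball_X2] at hg
      rw [ball_X1]
      simp only [Set.mem_ofPred_eq, toAdd_one] at hg ⊢
      have : l1 0 = 0 := rfl
      omega
    · rw [class_eq_iff, twConj_iff]
      exact twConj_refl _ _

lemma classes_ge (n : ℕ) :
    (twClasses (cubeHom (Fin 2)) XF n).ncard ≤ (twClasses phi X2 n).ncard := by
  refine Set.ncard_le_ncard_of_injOn (fun c => {p : Gp | p.1 ∈ c}) ?_ ?_
    (twClasses_finite X2 X2_finite _ _)
  · rintro c ⟨y, hy, rfl⟩
    refine ⟨(y, 1), ?_, ?_⟩
    · rw [ball_X2]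
      rw [mem_Ball_iff] at hy
      simp only [Set.mem_ofPred_eq, toAdd_one]
      have : l2 0 = 0 := rfl
      omega
    · ext ⟨g, s⟩
      exact (twConj_iff g y s 1).symm
  · intro c _ d _ h
    ext g
    have : ((g, 1) : Gp) ∈ {p : Gp | p.1 ∈ c} ↔ ((g, 1) : Gp) ∈ {p : Gp | p.1 ∈ d} := by
      simp only at h
      rw [h]
    exact this

lemma ball_X2_le (n : ℕ) : (Ball X2 n).ncard ≤ 4 * (Ball XF n).ncard := by
  have h1 : Ball X2 n ⊆ Ball XF n ×ˢ (Set.univ : Set (Multiplicative (ZMod 4))) := by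
    rintro ⟨g, s⟩ hg
    rw [ball_X2] at hg
    refine ⟨?_, trivial⟩
    rw [mem_Ball_iff]
    simp only [Set.mem_ofPred_eq] at hg ⊢
    omega
  refine (Set.ncard_le_ncard h1 ((Ball_finite XF XF_finite n).prod Set.finite_univ)).trans ?_
  rw [Set.ncard_prod, Set.ncard_univ]
  have : Nat.card (Multiplicative (ZMod 4)) = 4 := by
    rw [Nat.card_congr Multiplicative.toAdd]; simp
  rw [this, mul_comm]

lemma ball_gap (n : ℕ) :
    (Ball X1 (n + 2)).ncard + ((Ball XF (n + 1)).ncard - (Ball XF n).ncard) ≤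
      (Ball X2 (n + 2)).ncard := by
  classical
  set S : Set Gp := (fun g : FreeGroup (Fin 2) => ((g, Multiplicative.ofAdd 2) : Gp)) ''
    (Ball XF (n + 1) \ Ball XF n) with hS
  have h1 : Ball X1 (n + 2) ∪ S ⊆ Ball X2 (n + 2) := by
    rintro ⟨g, s⟩ (hg | hg)
    · rw [ball_X1] at hg
      rw [ball_X2]
      have hk : ∀ s : ZMod 4, l2 s ≤ l1 s := by decide
      have := hk (Multiplicative.toAdd s)
      simp only [Set.mem_ofPred_eq] at hg ⊢
      omega
    · obtain ⟨g', ⟨h1, h2⟩, h3⟩ := hg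
      simp only [Prod.mk.injEq] at h3
      obtain ⟨rfl, rfl⟩ := h3
      rw [ball_X2]
      rw [mem_Ball_iff] at h1
      simp only [Set.mem_ofPred_eq, toAdd_ofAdd]
      have : l2 2 = 1 := rfl
      omega
  have h2 : Disjoint (Ball X1 (n + 2)) S := by
    rw [Set.disjoint_left]
    rintro ⟨g, s⟩ hg ⟨g', ⟨h1, h2⟩, h3⟩
    simp only [Prod.mk.injEq] at h3
    obtain ⟨rfl, rfl⟩ := h3
    rw [ball_X1] at hg
    apply h2
    rw [mem_Ball_iff]
    simp only [Set.mem_ofPred_eq, toAdd_ofAdd] at hg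
    have : l1 2 = 2 := rfl
    omega
  have hSf : S.Finite := ((Ball_finite XF XF_finite _).subset Set.sdiff_subset).image _
  have h3 := Set.ncard_le_ncard h1 (Ball_finite X2 X2_finite _)
  rw [Set.ncard_union_eq h2 (Ball_finite X1 X1_finite _) hSf] at h3
  have h4 : S.ncard = (Ball XF (n + 1) \ Ball XF n).ncard := by
    rw [hS, Set.ncard_image_of_injective]
    intro a b h
    exact congrArg Prod.fst h
  have h5 : (Ball XF (n + 1)).ncard ≤
      (Ball XF (n + 1) \ Ball XF n).ncard + (Ball XF n).ncard :=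
    Set.ncard_le_ncard_sdiff_add_ncard _ _ (Ball_finite XF XF_finite _)
  omega

lemma ball_compare (n : ℕ) :
    41 * (Ball X1 (n + 2)).ncard ≤ 40 * (Ball X2 (n + 2)).ncard := by
  have h1 := ball_gap n
  have h2 : 2 * (Ball XF n).ncard ≤ (Ball XF (n + 1)).ncard := two_mul_ball_le (α := Fin 2) n
  have h3 := Ball_succ_ncard_le XF XF_finite (n + 1)
  have h4 := ball_X2_le (n + 2)
  have h5 := XF_ncard_le
  have h6 : (Ball XF (n + 1 + 1)).ncard ≤ 5 * (Ball XF (n + 1)).ncard :=
    h3.trans (Nat.mul_le_mul_right _ (by omega))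
  have h7 : (Ball XF (n + 2)).ncard = (Ball XF (n + 1 + 1)).ncard := rfl
  omega

lemma tcr_X2_pos : 0 < tcr phi X2 := by
  have hc : (1 : ℝ) / 40 ≤ tcr phi X2 := by
    refine le_tcr_of_eventually X2 X2_finite _ _ ?_
    filter_upwards [Filter.eventually_ge_atTop 2] with n hn
    obtain ⟨m, rfl⟩ : ∃ m, n = m + 1 + 1 := ⟨n - 2, by omega⟩
    have h1 := Ball_succ_ncard_le XF XF_finite (m + 1)
    have h2 : (Ball XF (m + 1)).ncard ≤ (twClasses (cubeHom (Fin 2)) XF (m + 1 + 1)).ncard + 1 :=
      ball_sub_one_le (α := Fin 2) (m + 1)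
    have h3 : 2 * (Ball XF m).ncard ≤ (Ball XF (m + 1)).ncard := two_mul_ball_le (α := Fin 2) m
    have h4 := Ball_ncard_pos XF XF_finite m
    have h5 := Ball_ncard_pos X2 X2_finite (m + 1 + 1)
    have h6 := classes_ge (m + 1 + 1)
    have h7 := ball_X2_le (m + 1 + 1)
    have h8 := XF_ncard_le
    have h9 : (Ball XF (m + 1 + 1)).ncard ≤ 5 * (Ball XF (m + 1)).ncard :=
      h1.trans (Nat.mul_le_mul_right _ (by omega))
    have h10 : (Ball X2 (m + 1 + 1)).ncard ≤ 40 * (twClasses phi X2 (m + 1 + 1)).ncard := by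
      omega
    rw [div_le_div_iff₀ (by positivity) (by exact_mod_cast h5)]
    have h11 : ((Ball X2 (m + 1 + 1)).ncard : ℝ) ≤
        40 * ((twClasses phi X2 (m + 1 + 1)).ncard : ℝ) := by exact_mod_cast h10
    linarith
  linarith

lemma tcr_lt : tcr phi X2 < tcr phi X1 := by
  set L := tcr phi X2 with hL
  have hpos : 0 < L := tcr_X2_pos
  have h1 : (81 : ℝ) / 82 * L < L := by linarith
  have h2 : ∃ᶠ n : ℕ in Filter.atTop,
      81 / 82 * L < ((twClasses phi X2 n).ncard : ℝ) / ((Ball X2 n).ncard : ℝ) := by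
    have hlt : 81 / 82 * L < Filter.limsup (fun n : ℕ =>
        ((twClasses phi X2 n).ncard : ℝ) / ((Ball X2 n).ncard : ℝ)) Filter.atTop := h1
    exact Filter.frequently_lt_of_lt_limsup (ratio_bddBelow X2 phi).isCoboundedUnder_le hlt
  have h3 : 81 / 80 * L ≤ tcr phi X1 := by
    refine Filter.le_limsup_of_frequently_le ?_ (ratio_bddAbove X1 X1_finite phi)
    refine (h2.and_eventually (Filter.eventually_ge_atTop 2)).mono ?_
    rintro n ⟨hn, hn2⟩
    obtain ⟨m, rfl⟩ : ∃ m, n = m + 2 := ⟨n - 2, by omega⟩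
    have h4 := ball_compare m
    have h5 : 41 * ((Ball X1 (m + 2)).ncard : ℝ) ≤ 40 * ((Ball X2 (m + 2)).ncard : ℝ) := by
      exact_mod_cast h4
    have h6 : (0 : ℝ) < (Ball X1 (m + 2)).ncard := by
      exact_mod_cast Ball_ncard_pos X1 X1_finite _
    have h7 : (0 : ℝ) < (Ball X2 (m + 2)).ncard := by
      exact_mod_cast Ball_ncard_pos X2 X2_finite _
    rw [classes_eq]
    rw [lt_div_iff₀ h7] at hn
    rw [le_div_iff₀ h6]
    nlinarith
  linarith

lemma closure_X1 : Subgroup.closure X1 = ⊤ := by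
  rw [eq_top_iff]
  intro g _
  have h : g ∈ Ball X1 (g.1.norm + l1 (Multiplicative.toAdd g.2)) := by
    rw [ball_X1]
    simp only [Set.mem_ofPred_eq]
    omega
  obtain ⟨l, -, hl, hl2⟩ := h
  rw [← hl2]
  refine Subgroup.list_prod_mem _ fun x hx => ?_
  rcases hl x hx with h | h
  · exact Subgroup.subset_closure h
  · rw [← inv_inv x]
    exact Subgroup.inv_mem _ (Subgroup.subset_closure h)

lemma closure_X2 : Subgroup.closure X2 = ⊤ := by
  rw [eq_top_iff, ← closure_X1]
  apply Subgroup.closure_mono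
  intro x hx
  simp only [X1, X2, Set.mem_insert_iff, Set.mem_singleton_iff] at hx ⊢
  tauto

/-- There are a finitely generated group, an endomorphism and two finite generating sets with
different twisted conjugacy ratios. -/
theorem result : ∃ (G : Type) (_ : Group G) (φ : G →* G) (X Y : Set G),
    X.Finite ∧ Y.Finite ∧ Subgroup.closure X = ⊤ ∧ Subgroup.closure Y = ⊤ ∧
      tcr φ X ≠ tcr φ Y :=
  ⟨Gp, inferInstance, phi, X1, X2, X1_finite, X2_finite, closure_X1, closure_X2, tcr_lt.ne'⟩

end Pool.Agent.Results.MP_91bf1e_al.GeneratorsMatter
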